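import Pool.Agent.Lib.MP_4c59c5_co.FinalA

/-!
# MP_4c59c5_co: the density is 2/7 iff near-extremal 3-graphs contain the six-part pattern

`Free43 H`: `H` is a set of triples and every 4 vertices span at most 2 of them. `ex3 n` is the
extremal number. For a map `π : V → Fin 6` the pattern triples `patT π` are the triples whose image is
one of the ten blocks `H6` of the 2-(6,3,2) design.
-/

set_option autoImplicit false

namespace Pool.Agent.Results.MP_4c59c5_co.DensityCriterion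

open Finset K4M
open scoped Classical

theorem result : ∃ ε0 : ℝ, 0 < ε0 ∧ ∀ ε : ℝ, 0 < ε → ε ≤ ε0 →
    ∀ L : ℝ, Filter.Tendsto (fun n : ℕ => (ex3 n : ℝ) / (n.choose 3 : ℝ)) Filter.atTop (nhds L) →
    (L = 2 / 7 ↔ ∀ δ : ℝ, 0 < δ → ∀ N : ℕ,
      ∃ (V : Type) (_ : Fintype V) (H : Finset (Finset V)) (π : V → Fin 6),
        N ≤ Fintype.card V ∧ Free43 H ∧ (L / 6 - δ) * (Fintype.card V : ℝ) ^ 3 ≤ (H.card : ℝ) ∧
        (10 / 216 - ε) * (Fintype.card V : ℝ) ^ 3 ≤ ((H ∩ patT π).card : ℝ)) := by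
  obtain ⟨ε0, hε0, hd⟩ := final_dich
  refine ⟨ε0, hε0, ?_⟩
  intro ε hε hle L hL
  have hLP : L = Pi0 := tendsto_nhds_unique hL ex3_tendsto
  subst hLP
  constructor
  · intro h δ hδ N
    exact final_conv h ε δ hε hδ N
  · intro h
    by_contra hne
    have hlt : 2 / 7 < Pi0 := lt_of_le_of_ne pi_ge (Ne.symm hne)
    obtain ⟨δ, hδ, N, hN⟩ := hd hlt
    obtain ⟨V, _, H, π, hV, hH, hc, hp⟩ := h δ hδ N
    have h1 := hN V hV H π hH hc
    have h2 : (10 / 216 - ε0) * (Fintype.card V : ℝ) ^ 3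
        ≤ (10 / 216 - ε) * (Fintype.card V : ℝ) ^ 3 :=
      mul_le_mul_of_nonneg_right (by linarith) (by positivity)
    linarith

end Pool.Agent.Results.MP_4c59c5_co.DensityCriterion
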