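import Pool.Agent.Lib.MP_4c59c5_co.FinalA

/-!
# MP_4c59c5_co: the exact maximum near the Frankl-Furedi pattern

`Free43 H`: `H` is a set of triples and every 4 vertices span at most 2 of them. `ex3 n` is the
extremal number. `H6` are the ten blocks of the 2-(6,3,2) design on the points 0,...,5; for a map
`ρ : V → Fin 6` the pattern triples `patT ρ` are the triples whose image is a block, `part ρ i` is the
part over `i`, `Fval m` is the number of triples of the blow-up with part sizes `m i` and extremal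
3-graphs inside the parts, and `g3 n` is the largest `Fval m` over `m` with sum `n` and all `m i`
within `n/100` of `n/6`.
-/

set_option autoImplicit false

namespace Pool.Agent.Results.MP_4c59c5_co.LocalExactness

open Finset K4M
open scoped Classical

theorem result (κ : ℝ) (hκ : 0 < κ) : ∃ ε : ℝ, 0 < ε ∧ ∃ N : ℕ,
    ∀ (V : Type) [Fintype V], N ≤ Fintype.card V →
      (∀ (H : Finset (Finset V)) (π : V → Fin 6), Free43 H →
        (10 / 216 - ε) * (Fintype.card V : ℝ) ^ 3 ≤ ((H ∩ patT π).card : ℝ) →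
        H.card ≤ g3 (Fintype.card V) ∧
        (H.card = g3 (Fintype.card V) → ∃ ρ : V → Fin 6,
          (∀ i, |((part ρ i).card : ℝ) - (Fintype.card V : ℝ) / 6| ≤ κ * (Fintype.card V : ℝ)) ∧
          (∀ e : Finset V, e.card = 3 → (¬ ∃ i, e ⊆ part ρ i) → (e ∈ H ↔ e ∈ patT ρ)) ∧
          (∀ i, (H.filter (fun e => e ⊆ part ρ i)).card = ex3 (part ρ i).card) ∧
          g3 (Fintype.card V) = Fval (fun i => (part ρ i).card))) ∧
      (∃ (H : Finset (Finset V)) (π : V → Fin 6), Free43 H ∧
        (10 / 216 - ε) * (Fintype.card V : ℝ) ^ 3 ≤ ((H ∩ patT π).card : ℝ) ∧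
        H.card = g3 (Fintype.card V)) ∧
      g3 (Fintype.card V) ≤ ex3 (Fintype.card V) := by
  obtain ⟨ε, hε, N, h⟩ := final_upper κ hκ
  obtain ⟨N', h'⟩ := final_lower ε hε
  exact ⟨ε, hε, N + N', fun V _ hV => ⟨fun H π hH hc => h V (by omega) H π hH hc,
      h' V (by omega), g3_le_ex3 _⟩⟩

end Pool.Agent.Results.MP_4c59c5_co.LocalExactness
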